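import Pool.Agent.W845.HC.Base

/-!
# The expected number of short cycles
-/

set_option autoImplicit false
open scoped Classical
open scoped BigOperators

namespace Pool.Agent.W762.HC

open Pool.Agent.W845.PM Pool.Agent.W845.HC

noncomputable section

/-- the path `0, 1, …, k` -/
def PA (k : ℕ) (G : SimpleGraph (Fin (k + 1))) : Prop :=
  ∀ i : Fin k, G.Adj (Fin.castSucc i) (Fin.succ i)

theorem ws_notMem (n : ℕ) (q : ℝ) (w : Fin n) :
    ∑ N : Finset (Fin n), ws n q N * (if w ∈ N then (0 : ℝ) else 1) = 1 - q := by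
  have h := prodT n q (fun x => if x = w then 0 else 1)
  have h1 : ∀ N : Finset (Fin n), (∏ x ∈ N, if x = w then (0 : ℝ) else 1) =
      if w ∈ N then (0 : ℝ) else 1 := by
    intro N
    split_ifs with hw
    · exact Finset.prod_eq_zero hw (by simp)
    · apply Finset.prod_eq_one
      intro x hx
      rw [if_neg]
      rintro rfl
      exact hw hx
  simp only [h1] at h
  rw [h, ← Finset.mul_prod_erase Finset.univ _ (Finset.mem_univ w), if_pos rfl]
  have h2 : ∏ x ∈ Finset.univ.erase w, (1 - q + q * if x = w then (0 : ℝ) else 1) = 1 := by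
    apply Finset.prod_eq_one
    intro x hx
    rw [if_neg (Finset.ne_of_mem_erase hx)]
    ring
  rw [h2]
  ring

theorem ws_notMem2 (n : ℕ) (q : ℝ) (w w' : Fin n) (hne : w ≠ w') :
    ∑ N : Finset (Fin n), ws n q N * (if w ∈ N ∨ w' ∈ N then (0 : ℝ) else 1) =
      (1 - q) ^ 2 := by
  have h := prodT n q (fun x => if x = w ∨ x = w' then 0 else 1)
  have h1 : ∀ N : Finset (Fin n), (∏ x ∈ N, if x = w ∨ x = w' then (0 : ℝ) else 1) =
      if w ∈ N ∨ w' ∈ N then (0 : ℝ) else 1 := by
    intro N
    split_ifs with hw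
    · rcases hw with hw | hw
      · exact Finset.prod_eq_zero hw (by simp)
      · exact Finset.prod_eq_zero hw (by simp)
    · apply Finset.prod_eq_one
      intro x hx
      rw [if_neg]
      rintro (rfl | rfl)
      · exact hw (Or.inl hx)
      · exact hw (Or.inr hx)
  simp only [h1] at h
  have hmem : w' ∈ Finset.univ.erase w := Finset.mem_erase.2 ⟨hne.symm, Finset.mem_univ _⟩
  rw [h, ← Finset.mul_prod_erase Finset.univ _ (Finset.mem_univ w),
    ← Finset.mul_prod_erase (Finset.univ.erase w) _ hmem, if_pos (Or.inl rfl),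
    if_pos (Or.inr rfl)]
  have h2 : ∏ x ∈ (Finset.univ.erase w).erase w',
      (1 - q + q * if x = w ∨ x = w' then (0 : ℝ) else 1) = 1 := by
    apply Finset.prod_eq_one
    intro x hx
    rw [if_neg]
    · ring
    · rintro (h3 | h3)
      · exact Finset.ne_of_mem_erase (Finset.mem_of_mem_erase hx) h3
      · exact Finset.ne_of_mem_erase hx h3
  rw [h2]
  ring

theorem ws_mem (n : ℕ) (q : ℝ) (w : Fin n) :
    ∑ N : Finset (Fin n), ws n q N * (if w ∈ N then (1 : ℝ) else 0) = q := by
  have h1 := ws_notMem n q w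
  have h2 := (oneT n q).2
  have h3 : ∑ N : Finset (Fin n), ws n q N * (if w ∈ N then (1 : ℝ) else 0) +
      ∑ N : Finset (Fin n), ws n q N * (if w ∈ N then (0 : ℝ) else 1) =
      ∑ N : Finset (Fin n), ws n q N := by
    rw [← Finset.sum_add_distrib]
    apply Finset.sum_congr rfl
    intro N _
    split_ifs <;> ring
  linarith

theorem ws_mem2 (n : ℕ) (q : ℝ) (w w' : Fin n) (hne : w ≠ w') :
    ∑ N : Finset (Fin n), ws n q N * (if w ∈ N ∧ w' ∈ N then (1 : ℝ) else 0) = q ^ 2 := by
  have h1 := ws_notMem n q w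
  have h1' := ws_notMem n q w'
  have h1'' := ws_notMem2 n q w w' hne
  have h2 := (oneT n q).2
  have h3 : ∑ N : Finset (Fin n), ws n q N * (if w ∈ N ∧ w' ∈ N then (1 : ℝ) else 0) +
      (∑ N : Finset (Fin n), ws n q N * (if w ∈ N then (0 : ℝ) else 1) +
      ∑ N : Finset (Fin n), ws n q N * (if w' ∈ N then (0 : ℝ) else 1)) =
      ∑ N : Finset (Fin n), ws n q N +
      ∑ N : Finset (Fin n), ws n q N * (if w ∈ N ∨ w' ∈ N then (0 : ℝ) else 1) := by
    rw [← Finset.sum_add_distrib, ← Finset.sum_add_distrib, ← Finset.sum_add_distrib]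
    apply Finset.sum_congr rfl
    intro N _
    by_cases ha : w ∈ N <;> by_cases hb : w' ∈ N <;> simp [ha, hb]
  nlinarith

theorem path_ext (k : ℕ) (K : SimpleGraph (Fin (k + 1))) (N : Finset (Fin (k + 1))) :
    PA (k + 1) (ext K N) ↔ PA k K ∧ Fin.last k ∈ N := by
  constructor
  · intro h
    refine ⟨fun i => ?_, ?_⟩
    · have h1 := h (Fin.castSucc i)
      rw [Fin.succ_castSucc, ext_adj_castSucc] at h1
      exact h1
    · have h1 := (h (Fin.last k)).symm
      rw [Fin.succ_last, ext_adj_last] at h1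
      exact h1
  · rintro ⟨h1, h2⟩ i
    induction i using Fin.lastCases with
    | last =>
      apply SimpleGraph.Adj.symm
      rw [Fin.succ_last, ext_adj_last]
      exact h2
    | cast i =>
      rw [Fin.succ_castSucc, ext_adj_castSucc]
      exact h1 i

theorem path_prob (q : ℝ) (k : ℕ) :
    EG (k + 1) q (fun G => if PA k G then (1 : ℝ) else 0) = q ^ k := by
  induction k with
  | zero =>
    have h1 : (fun G : SimpleGraph (Fin 1) => if PA 0 G then (1 : ℝ) else 0) = fun _ => 1 := by
      funext G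
      rw [if_pos]
      intro i
      exact i.elim0
    rw [h1, (oneT 1 q).1, pow_zero]
  | succ k ih =>
    rw [extT]
    have h1 : ∀ N : Finset (Fin (k + 1)), ws (k + 1) q N *
        EG (k + 1) q (fun K => if PA (k + 1) (ext K N) then (1 : ℝ) else 0) =
        (ws (k + 1) q N * (if Fin.last k ∈ N then (1 : ℝ) else 0)) * q ^ k := by
      intro N
      have e := EG_mul_left (k + 1) q (if Fin.last k ∈ N then (1 : ℝ) else 0)
        (fun G => if PA k G then (1 : ℝ) else 0)
      rw [← ih, mul_assoc, ← e]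
      congr 1
      apply EG_congr
      intro K
      rw [path_ext]
      by_cases ha : PA k K <;> by_cases hb : Fin.last k ∈ N <;> simp [ha, hb]
    rw [Finset.sum_congr rfl (fun N _ => h1 N), ← Finset.sum_mul, ws_mem]
    ring

theorem cycle_ext (l : ℕ) (K : SimpleGraph (Fin (l + 2))) (N : Finset (Fin (l + 2)))
    (h : ∀ i : Fin (l + 3), (ext K N).Adj i (i + 1)) :
    PA (l + 1) K ∧ (Fin.last (l + 1) ∈ N ∧ (0 : Fin (l + 2)) ∈ N) := by
  have hp : ∀ i : Fin (l + 2), (ext K N).Adj (Fin.castSucc i) (Fin.succ i) := by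
    intro i
    have h1 := h (Fin.castSucc i)
    have h2 : (Fin.castSucc i + 1 : Fin (l + 3)) = Fin.succ i := by
      rw [Fin.coeSucc_eq_succ]
    rwa [h2] at h1
  have h3 := (path_ext (l + 1) K N).1 hp
  refine ⟨h3.1, h3.2, ?_⟩
  have h4 := h (Fin.last (l + 2))
  rw [Fin.last_add_one] at h4
  have h5 : (0 : Fin (l + 3)) = Fin.castSucc (0 : Fin (l + 2)) := rfl
  rw [h5, ext_adj_last] at h4
  exact h4

theorem cycle_prob (q : ℝ) (h0 : 0 ≤ q) (h1 : q ≤ 1) (l : ℕ) :
    EG (l + 3) q (fun G => if ∀ i : Fin (l + 3), G.Adj i (i + 1) then (1 : ℝ) else 0) ≤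
      q ^ (l + 3) := by
  rw [extT]
  have h2 : ∀ N : Finset (Fin (l + 2)), ws (l + 2) q N *
      EG (l + 2) q (fun K => if ∀ i : Fin (l + 3), (ext K N).Adj i (i + 1) then (1 : ℝ) else 0) ≤
      (ws (l + 2) q N * (if Fin.last (l + 1) ∈ N ∧ (0 : Fin (l + 2)) ∈ N then (1 : ℝ) else 0)) *
        q ^ (l + 1) := by
    intro N
    have e := EG_mul_left (l + 2) q
      (if Fin.last (l + 1) ∈ N ∧ (0 : Fin (l + 2)) ∈ N then (1 : ℝ) else 0)
      (fun G => if PA (l + 1) G then (1 : ℝ) else 0)
    rw [← path_prob q (l + 1), mul_assoc]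
    refine mul_le_mul_of_nonneg_left ?_ (ws_nonneg h0 h1 N)
    rw [← e]
    apply EG_mono h0 h1
    intro K
    by_cases hc : ∀ i : Fin (l + 3), (ext K N).Adj i (i + 1)
    · obtain ⟨h3, h4⟩ := cycle_ext l K N hc
      rw [if_pos hc, if_pos h3, if_pos h4]
      norm_num
    · rw [if_neg hc]
      split_ifs <;> norm_num
  refine (Finset.sum_le_sum (fun N _ => h2 N)).trans ?_
  rw [← Finset.sum_mul, ws_mem2]
  · apply le_of_eq
    ring
  · intro h
    have := congrArg Fin.val h
    simp at this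

theorem ecyc (_h : S_GENF) : S_ECYC := by
  intro n L q h0 h1
  have e1 : (fun G : SimpleGraph (Fin n) => (cyc L G : ℝ)) = fun G => ∑ l ∈ Finset.range L,
      ∑ f : Fin (l + 3) → Fin n, if Function.Injective f ∧
        ∀ i : Fin (l + 3), G.Adj (f i) (f (i + 1)) then (1 : ℝ) else 0 := by
    funext G
    unfold cyc
    rw [Nat.cast_sum]
    apply Finset.sum_congr rfl
    intro l _
    rw [Finset.card_filter]
    push_cast
    rfl
  rw [e1, EG_sum]
  apply Finset.sum_le_sum
  intro l _
  rw [EG_sum]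
  have e2 : ∀ f : Fin (l + 3) → Fin n, EG n q (fun G => if Function.Injective f ∧
        ∀ i : Fin (l + 3), G.Adj (f i) (f (i + 1)) then (1 : ℝ) else 0) ≤ q ^ (l + 3) := by
    intro f
    by_cases hf : Function.Injective f
    · have h2 := comT (l + 3) n ⟨f, hf⟩ q
        (fun G => if ∀ i : Fin (l + 3), G.Adj i (i + 1) then (1 : ℝ) else 0)
      have h3 : (fun G : SimpleGraph (Fin n) => if Function.Injective f ∧
          ∀ i : Fin (l + 3), G.Adj (f i) (f (i + 1)) then (1 : ℝ) else 0) =
          fun G => if ∀ i : Fin (l + 3), (G.comap (⟨f, hf⟩ : Fin (l + 3) ↪ Fin n)).Adj i (i + 1)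
            then (1 : ℝ) else 0 := by
        funext G
        simp only [hf, true_and, SimpleGraph.comap_adj, Function.Embedding.coeFn_mk]
      refine le_trans (le_of_eq ?_) (cycle_prob q h0 h1 l)
      rw [h3]
      convert h2
    · have h3 : (fun G : SimpleGraph (Fin n) => if Function.Injective f ∧
          ∀ i : Fin (l + 3), G.Adj (f i) (f (i + 1)) then (1 : ℝ) else 0) = fun _ => 0 := by
        funext G
        rw [if_neg (fun h => hf h.1)]
      rw [h3]
      unfold EG
      simp only [mul_zero, Finset.sum_const_zero]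
      exact pow_nonneg h0 _
  refine (Finset.sum_le_sum (fun f _ => e2 f)).trans ?_
  rw [Finset.sum_const, Finset.card_univ, Fintype.card_fun, Fintype.card_fin, Fintype.card_fin,
    nsmul_eq_mul, mul_pow]
  push_cast
  exact le_rfl

end

end Pool.Agent.W762.HC
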